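import Pool.Agent.Helper30.CIR.Goals

set_option autoImplicit false

open Set Filter Topology

open scoped ContDiff

namespace Pool.Agent.Helper41.CIR

open Pool.Agent.Helper56.RZ

section aux

variable {T : Type} [NormedAddCommGroup T] [NormedSpace ℝ T] {N K r : ℕ}
  {U : Set (T × E N)} {Φ : T × E N → E K}

/-- The partial iterated derivative is the restriction of the total one. -/
theorem partial_eq (hU : IsOpen U) (hΦ : ContDiffOn ℝ r Φ U) {k : ℕ} (hk : k ≤ r)
    {q : T × E N} (hq : q ∈ U) :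
    iteratedFDeriv ℝ k (fun z => Φ (q.1, z)) q.2 =
      (iteratedFDeriv ℝ k Φ q).compContinuousLinearMap
        fun _ => ContinuousLinearMap.inr ℝ T (E N) := by
  set a : T × E N := (q.1, 0) with ha
  set g : E N →L[ℝ] T × E N := ContinuousLinearMap.inr ℝ T (E N) with hg
  set W : Set (T × E N) := (fun y => a + y) ⁻¹' U with hW
  have hWo : IsOpen W := hU.preimage (by fun_prop)
  have hΨ : ContDiffOn ℝ r (fun y => Φ (a + y)) W := by
    refine hΦ.comp ?_ (fun y hy => hy)
    exact (contDiff_const.add contDiff_id).contDiffOn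
  have hgo : IsOpen (g ⁻¹' W) := hWo.preimage g.continuous
  have haq : a + g q.2 = q := by
    rw [ha, hg]
    ext1 <;> simp
  have hx : g q.2 ∈ W := by
    show a + g q.2 ∈ U
    rw [haq]; exact hq
  have h1 := g.iteratedFDerivWithin_comp_right hΨ hWo.uniqueDiffOn hgo.uniqueDiffOn hx
    (i := k) (by exact_mod_cast hk)
  rw [iteratedFDerivWithin_of_isOpen k hgo hx, iteratedFDerivWithin_of_isOpen k hWo hx,
    iteratedFDeriv_comp_add_left, haq] at h1
  rw [← h1]
  congr 1
  funext z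
  show Φ (q.1, z) = Φ (a + g z)
  congr 1
  rw [ha, hg]
  ext1 <;> simp

theorem partial_cont (hU : IsOpen U) (hΦ : ContDiffOn ℝ r Φ U) {k : ℕ} (hk : k ≤ r) :
    ContinuousOn (fun q : T × E N => iteratedFDeriv ℝ k (fun z => Φ (q.1, z)) q.2) U := by
  have h1 : ContinuousOn (iteratedFDeriv ℝ k Φ) U := by
    refine (hΦ.continuousOn_iteratedFDerivWithin (m := k) (by exact_mod_cast hk)
      hU.uniqueDiffOn).congr ?_
    intro q hq
    exact (iteratedFDerivWithin_of_isOpen k hU hq).symm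
  have h2 : ContinuousOn (fun q : T × E N => (iteratedFDeriv ℝ k Φ q).compContinuousLinearMap
        fun _ => ContinuousLinearMap.inr ℝ T (E N)) U := by
    have h3 : Continuous (fun m : ContinuousMultilinearMap ℝ (fun _ : Fin k => T × E N) (E K) =>
        m.compContinuousLinearMap fun _ => ContinuousLinearMap.inr ℝ T (E N)) :=
      (ContinuousMultilinearMap.compContinuousLinearMapL (𝕜 := ℝ) (F := E K)
        (fun _ : Fin k => ContinuousLinearMap.inr ℝ T (E N))).continuous
    exact h3.comp_continuousOn h1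
  refine h2.congr ?_
  intro q hq
  exact partial_eq hU hΦ hk hq

end aux

theorem gPAR : Pool.Agent.Helper30.CIR.StmtPAR := by
  intro T _ _ N K r U S Φ hU hΦ hS hSU ε hε
  have key : ∀ q ∈ S, ∀ᶠ w : T × (T × E N) in 𝓝 ((0 : T), q),
      (w.2.1 + w.1, w.2.2) ∈ U ∧ w.2 ∈ U ∧ ∀ k ≤ r,
        ‖iteratedFDeriv ℝ k (fun z => Φ (w.2.1 + w.1, z)) w.2.2 -
          iteratedFDeriv ℝ k (fun z => Φ (w.2.1, z)) w.2.2‖ < ε := by
    intro q hq
    have hqU := hSU hq
    have c1 : Tendsto (fun w : T × (T × E N) => (w.2.1 + w.1, w.2.2)) (𝓝 ((0 : T), q)) (𝓝 q) := by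
      have hc : Continuous (fun w : T × (T × E N) => (w.2.1 + w.1, w.2.2)) := by fun_prop
      have h0 := hc.tendsto ((0 : T), q)
      simpa using h0
    have c2 : Tendsto (fun w : T × (T × E N) => w.2) (𝓝 ((0 : T), q)) (𝓝 q) :=
      continuous_snd.tendsto ((0 : T), q)
    have e1 : ∀ᶠ w : T × (T × E N) in 𝓝 ((0 : T), q), (w.2.1 + w.1, w.2.2) ∈ U :=
      c1.eventually (hU.mem_nhds hqU)
    have e2 : ∀ᶠ w : T × (T × E N) in 𝓝 ((0 : T), q), w.2 ∈ U :=
      c2.eventually (hU.mem_nhds hqU)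
    have e3 : ∀ᶠ w : T × (T × E N) in 𝓝 ((0 : T), q), ∀ k ∈ Finset.range (r + 1),
        ‖iteratedFDeriv ℝ k (fun z => Φ (w.2.1 + w.1, z)) w.2.2 -
          iteratedFDeriv ℝ k (fun z => Φ (w.2.1, z)) w.2.2‖ < ε := by
      rw [Filter.eventually_all_finset]
      intro k hk
      have hk' : k ≤ r := by
        have := Finset.mem_range.1 hk
        omega
      have hc : ContinuousAt (fun q : T × E N => iteratedFDeriv ℝ k (fun z => Φ (q.1, z)) q.2) q :=
        (partial_cont hU hΦ hk').continuousAt (hU.mem_nhds hqU)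
      have t1 := hc.tendsto.comp c1
      have t2 := hc.tendsto.comp c2
      have t3 := (t1.sub t2).norm
      simp only [sub_self, norm_zero] at t3
      exact t3.eventually (gt_mem_nhds hε)
    filter_upwards [e1, e2, e3] with w h1 h2 h3
    exact ⟨h1, h2, fun k hk => h3 k (Finset.mem_range.2 (by omega))⟩
  have hev := hS.eventually_forall_of_forall_eventually
    (P := fun (t : T) (q : T × E N) => (q.1 + t, q.2) ∈ U ∧ q ∈ U ∧ ∀ k ≤ r,
        ‖iteratedFDeriv ℝ k (fun z => Φ (q.1 + t, z)) q.2 -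
          iteratedFDeriv ℝ k (fun z => Φ (q.1, z)) q.2‖ < ε) key
  obtain ⟨δ, hδ, hball⟩ := Metric.eventually_nhds_iff.1 hev
  refine ⟨δ / 2, by positivity, ?_⟩
  intro p z hpz p' hp'
  have hd : dist (p' - p) 0 < δ := by
    rw [dist_zero_right]; linarith
  obtain ⟨h1, h2, h3⟩ := hball hd (p, z) hpz
  have e : p + (p' - p) = p' := by abel
  simp only [e] at h1 h3
  refine ⟨h1, ?_⟩
  intro k hk
  have slice : ∀ p₀ : T, (p₀, z) ∈ U → ContDiffAt ℝ k (fun z => Φ (p₀, z)) z := by
    intro p₀ hp₀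
    have hA : ContDiffAt ℝ r Φ (p₀, z) := (hΦ _ hp₀).contDiffAt (hU.mem_nhds hp₀)
    have hB : ContDiffAt ℝ r (fun z : E N => (p₀, z)) z := by
      exact contDiffAt_const.prodMk contDiffAt_id
    have hC : ContDiffAt ℝ r (fun z => Φ (p₀, z)) z := hA.comp z hB
    exact hC.of_le (by exact_mod_cast hk)
  have hsub := iteratedFDeriv_sub_apply (slice p' h1) (slice p h2)
  have hfun : (fun z => Φ (p', z) - Φ (p, z)) = (fun z => Φ (p', z)) - (fun z => Φ (p, z)) := rfl
  rw [hfun, hsub]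
  exact (h3 k hk).le

end Pool.Agent.Helper41.CIR
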